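import Pool.Agent.Y287.GT.Pair0
import Pool.Agent.Y157.PS.All

/-!
# Project GT (helper157): job GT-PAIR
-/

set_option autoImplicit false

namespace Pool.Agent.Y287.GT

open Pool.Agent.Y157.PS Pool.Agent.Y157.GT

theorem pair : S_PAIR := pair' a_cov a_emb

end Pool.Agent.Y287.GT
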