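import Pool.Agent.Y748.PS.WGT
import Pool.Agent.Y157.GT.Stm

/-!
# Project GT (helper157): the weight argument at places of good reduction
(adapted from `Pool/Agent/Y748/PS/{W3,WGT}.lean`)
-/

set_option autoImplicit false
set_option linter.all false

open Polynomial FF Pool.Agent.Y157.PS Pool.Agent.Y157.GT Pool.Agent.Y748.PS

namespace Pool.Agent.Y287.GT

theorem res_facts' {ℓ : ℕ} [Fact ℓ.Prime] {A k κ : Type} [CommRing A] [IsDomain A]
    [IsDiscreteValuationRing A] [Field k] [Field κ] [Algebra A k] [Algebra k κ] [Algebra A κ]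
    [IsScalarTower A k κ] [IsFractionRing A k] [Algebra.IsAlgebraic k κ]
    [Finite (IsLocalRing.ResidueField A)] {V : ValuationSubring κ} {ϖ : A}
    (hlu : IsUnit (ℓ : A)) (hmem : ∀ a : A, algebraMap A κ a ∈ V)
    (hnon : ∀ a ∈ IsLocalRing.maximalIdeal A, algebraMap A κ a ∈ V.nonunits)
    (hirr : Irreducible ϖ) {F : Type} [Field F] {r : V →+* F} (hr : Res V r) :
    ∃ p a : ℕ, p.Prime ∧ CharP F p ∧ 0 < a ∧ Nat.card (IsLocalRing.ResidueField A) = p ^ a ∧
      (∀ c : F, ∃ m : ℕ, 0 < m ∧ c ^ (Nat.card (IsLocalRing.ResidueField A) ^ m) = c) ∧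
      Nat.Coprime (Nat.card (IsLocalRing.ResidueField A)) ℓ := by
  classical
  let K := IsLocalRing.ResidueField A
  letI : Fintype K := Fintype.ofFinite K
  let g : A →+* V := (algebraMap A κ).codRestrict V hmem
  let f : A →+* F := r.comp g
  have hfz : ∀ a ∈ IsLocalRing.maximalIdeal A, f a = 0 := by
    intro a ha
    show r (g a) = 0
    rw [hr.ker]
    exact hnon a ha
  haveI : IsLocalHom f := by
    refine ⟨fun a ha => ?_⟩
    by_contra h
    have h1 : a ∈ IsLocalRing.maximalIdeal A := h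
    rw [hfz a h1] at ha
    exact not_isUnit_zero ha
  let i : K →+* F := IsLocalRing.ResidueField.lift f
  obtain ⟨p, hp⟩ := CharP.exists K
  obtain ⟨n, hpp, hn⟩ := FiniteField.card K p
  have hq : Nat.card K = p ^ (n : ℕ) := by rw [Nat.card_eq_fintype_card, hn]
  have hcop : Nat.Coprime (Nat.card K) ℓ := by
    rw [hq]
    refine Nat.Coprime.pow_left _ ((Nat.coprime_primes hpp (Fact.out : ℓ.Prime)).2 ?_)
    rintro rfl
    have h2 := (hlu.map (IsLocalRing.residue A))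
    rw [map_natCast] at h2
    have h3 : ((p : ℕ) : K) = 0 := CharP.cast_eq_zero K p
    rw [h3] at h2
    exact not_isUnit_zero h2
  refine ⟨p, n, hpp, charP_of_injective_ringHom i.injective p, n.pos, hq, fun c => ?_, hcop⟩
  -- every element is algebraic over the finite field
  letI : Algebra K F := i.toAlgebra
  have halg : IsAlgebraic K c := by
    obtain ⟨z, rfl⟩ := hr.surj c
    have h1 : IsAlgebraic A (z : κ) :=
      (IsFractionRing.isAlgebraic_iff A k κ).2 (Algebra.IsAlgebraic.isAlgebraic _)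
    obtain ⟨P, hP0, hP⟩ := h1
    letI : StrongNormalizationMonoid A := UniqueFactorizationMonoid.normalizationMonoid
    letI : StrongNormalizedGCDMonoid A := UniqueFactorizationMonoid.toStrongNormalizedGCDMonoid A
    set Q := P.primPart with hQ
    have hPQ : P = C P.content * Q := P.eq_C_content_mul_primPart
    have hinj : Function.Injective (algebraMap A κ) := by
      rw [IsScalarTower.algebraMap_eq A k κ]
      exact (algebraMap k κ).injective.comp (IsFractionRing.injective A k)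
    have hc0 : P.content ≠ 0 := fun h => hP0 (content_eq_zero_iff.1 h)
    have hQz : aeval (z : κ) Q = 0 := by
      rw [hPQ, map_mul, aeval_C] at hP
      refine (mul_eq_zero.1 hP).resolve_left fun h => hc0 ?_
      exact hinj (by rw [h, map_zero])
    have hQ0 : Q.map (IsLocalRing.residue A) ≠ 0 := by
      intro h
      have h2 : C ϖ ∣ Q := by
        rw [C_dvd_iff_dvd_coeff]
        intro j
        have h3 : IsLocalRing.residue A (Q.coeff j) = 0 := by
          rw [← coeff_map, h, coeff_zero]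
        rw [IsLocalRing.residue_eq_zero_iff,
          (IsDiscreteValuationRing.irreducible_iff_uniformizer ϖ).1 hirr,
          Ideal.mem_span_singleton] at h3
        exact h3
      exact hirr.not_isUnit (P.isPrimitive_primPart ϖ h2)
    refine ⟨Q.map (IsLocalRing.residue A), hQ0, ?_⟩
    rw [aeval_def, eval₂_map]
    have h4 : (algebraMap K F).comp (IsLocalRing.residue A) = r.comp g := by
      ext a
      show i (IsLocalRing.residue A a) = f a
      exact IsLocalRing.ResidueField.lift_residue_apply f a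
    rw [h4, ← Polynomial.hom_eval₂]
    have h5 : eval₂ g z Q = 0 := by
      apply Subtype.ext
      have h6 : ((eval₂ g z Q : V) : κ) = eval₂ (algebraMap A κ) (z : κ) Q := by
        have := Polynomial.hom_eval₂ Q g V.subtype z
        exact this
      rw [h6, ← aeval_def, hQz]
      rfl
    rw [h5, map_zero]
  haveI : FiniteDimensional K (IntermediateField.adjoin K {c}) :=
    IntermediateField.adjoin.finiteDimensional halg.isIntegral
  haveI : Finite (IntermediateField.adjoin K {c}) := Module.finite_of_finite K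
  letI : Fintype (IntermediateField.adjoin K {c}) := Fintype.ofFinite _
  refine ⟨Module.finrank K (IntermediateField.adjoin K {c}), Module.finrank_pos, ?_⟩
  have h1 : Nat.card (IntermediateField.adjoin K {c}) =
      Nat.card K ^ Module.finrank K (IntermediateField.adjoin K {c}) :=
    Module.natCard_eq_pow_finrank
  have h2 := FiniteField.pow_card
    (⟨c, IntermediateField.mem_adjoin_simple_self K c⟩ : IntermediateField.adjoin K {c})
  rw [← Nat.card_eq_fintype_card, h1] at h2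
  exact congrArg Subtype.val h2


section

variable {A k κ R M : Type} [CommRing A] [IsDomain A]
    [IsDiscreteValuationRing A] [Field k] [Field κ] [Algebra A k] [Algebra k κ] [Algebra A κ]
    [IsScalarTower A k κ] [IsFractionRing A k] [CharZero k] [IsAlgClosure k κ]
    [Finite (IsLocalRing.ResidueField A)] [Field R] [Field M] [Algebra κ R] [Algebra R M]
    [Algebra κ M] [IsScalarTower κ R M]

theorem isU_ell' {ℓ : ℕ} {V : ValuationSubring κ} (hlu : IsUnit (ℓ : A))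
    (hmem : ∀ a : A, algebraMap A κ a ∈ V) : IsU V (ℓ : κ) := by
  obtain ⟨a, ha⟩ := hlu.exists_right_inv
  have h1 : (ℓ : κ) * algebraMap A κ a = 1 := by
    rw [← map_natCast (algebraMap A κ) ℓ, ← map_mul, ha, map_one]
  have h2 : (ℓ : κ) ≠ 0 := left_ne_zero_of_mul_eq_one h1
  refine ⟨h2, ?_, ?_⟩
  · have := hmem (ℓ : A)
    rwa [map_natCast] at this
  · rw [← eq_inv_of_mul_eq_one_right h1]
    exact hmem a

variable {ℓ : ℕ} [Fact ℓ.Prime] [IsAlgClosed κ] [CharZero κ] {V : ValuationSubring κ}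
  {ϖ : A} {x : R} {B : Finset κ} {Y : M} {s : (κ ≃ₐ[k] κ) →* RingAut M}
  {O : ValuationSubring M}

theorem chi_kum' (hlu : IsUnit (ℓ : A)) (hmem : ∀ a : A, algebraMap A κ a ∈ V)
    (hnon : ∀ a ∈ IsLocalRing.maximalIdeal A, algebraMap A κ a ∈ V.nonunits)
    (hirr : Irreducible ϖ) (hG2 : S_G2) (hKUM : S_KUMG)
    (hC : Cov ℓ κ R M x B Y) (hO : Gauss V (algebraMap R M x) O)
    (hu : ∀ O' : ValuationSubring M, Gauss V (algebraMap R M x) O' → O' = O)
    (hs : Sec k κ R M x Y (1 : κ) s)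
    (hex : ∀ σ : κ ≃ₐ[k] κ, Ine V σ → ∃ γ : M ≃ₐ[R] M, Rel O s σ γ)
    {φ : κ ≃ₐ[k] κ} (hφ : Fro V (Nat.card (IsLocalRing.ResidueField A)) φ) (hφδ : φ (1 : κ) = (1 : κ))
    {h : M} (hh : h ≠ 0) {n : ℕ} {χ : (κ ≃ₐ[k] κ) → κ}
    (hχ : ∀ σ, Ine V σ → σ (1 : κ) = (1 : κ) → χ σ ^ (ℓ ^ n) = 1 ∧
      ∀ γ : M ≃ₐ[R] M, Rel O s σ γ → γ h = algebraMap κ M (χ σ) * h)
    {σ : κ ≃ₐ[k] κ} (hσ : Ine V σ) (hσδ : σ (1 : κ) = (1 : κ)) :
    χ (φ * σ * φ⁻¹) = χ σ ^ Nat.card (IsLocalRing.ResidueField A) := by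
  refine hKUM ℓ A k κ V ϖ hlu hmem hnon hirr φ hφ n χ
    (fun σ h1 => (hχ σ h1 (map_one σ)).1) ?_ ?_ σ hσ
  · intro σ σ' h1 h1'
    have h2 : σ (1 : κ) = 1 := map_one σ
    have h2' : σ' (1 : κ) = 1 := map_one σ'
    obtain ⟨γ, hγ⟩ := hex σ h1
    obtain ⟨γ', hγ'⟩ := hex σ' h1'
    have h3 := (hχ (σ * σ') (ine_mul h1 h1') (by rw [AlgEquiv.mul_apply, h2', h2])).2 _
      (Rel.mul hO hu hs h1.1 hγ hγ')
    rw [AlgEquiv.mul_apply, (hχ σ' h1' h2').2 γ' hγ', map_mul, gal_const, (hχ σ h1 h2).2 γ hγ,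
      ← mul_assoc, ← map_mul] at h3
    have h4 := mul_right_cancel₀ hh h3
    have h5 := (algebraMap κ M).injective h4
    rw [← h5, mul_comm]
  · obtain ⟨c, hc0, hc⟩ := (hG2 ℓ κ R M x B Y hC V O hO).1 h hh
    obtain ⟨E2, hE2, hE2'⟩ := hs.cont h
    haveI := hE2
    have halg : Algebra.IsAlgebraic k κ := IsAlgClosure.isAlgebraic
    haveI : FiniteDimensional k (IntermediateField.adjoin k {c}) :=
      IntermediateField.adjoin.finiteDimensional (halg.isAlgebraic c).isIntegral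
    refine ⟨IntermediateField.adjoin k {c} ⊔ E2, inferInstance, fun σ hσE h1 => ?_⟩
    have h2 : σ (1 : κ) = 1 := map_one σ
    rw [IntermediateField.mem_fixingSubgroup_iff] at hσE
    have h3 : σ c = c := hσE c ((le_sup_left : IntermediateField.adjoin k {c} ≤ _)
      (IntermediateField.mem_adjoin_simple_self k c))
    have h4 : s σ h = h := hE2' σ (by
      rw [IntermediateField.mem_fixingSubgroup_iff]
      exact fun y hy => hσE y ((le_sup_right : E2 ≤ _) hy))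
    obtain ⟨γ, hγ⟩ := hex σ h1
    have h5 := hγ _ hc.2.1
    rw [map_div₀, map_div₀, gal_const, hs.const, h3, h4, (hχ σ h1 h2).2 γ hγ] at h5
    have h6 : algebraMap κ M (χ σ) - 1 ∈ O.nonunits := by
      have h7 : algebraMap κ M (χ σ) - 1 = (h / algebraMap κ M c)⁻¹ *
          (algebraMap κ M (χ σ) * h / algebraMap κ M c - h / algebraMap κ M c) := by
        have hc1 : algebraMap κ M c ≠ 0 := by
          rw [Ne, FaithfulSMul.algebraMap_eq_zero_iff]; exact hc0
        field_simp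
      rw [h7]
      exact nu_mul hc.2.2 h5
    have h8 : algebraMap κ M (χ σ) = 1 := by
      refine rou_eq_one (m := ℓ ^ n) ?_ (by rw [← map_pow, (hχ σ h1 h2).1, map_one]) h6
      have := isU_pow (isU_alg hO (isU_ell' hlu hmem)) n
      rw [map_natCast] at this
      rwa [Nat.cast_pow]
    exact (algebraMap κ M).injective (by rw [h8, map_one])

/-- the weight argument -/
theorem frob_fix' (hlu : IsUnit (ℓ : A)) (hmem : ∀ a : A, algebraMap A κ a ∈ V)
    (hnon : ∀ a ∈ IsLocalRing.maximalIdeal A, algebraMap A κ a ∈ V.nonunits)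
    (hirr : Irreducible ϖ) (hG2 : S_G2) (hKUM : S_KUMG)
    (hC : Cov ℓ κ R M x B Y) (hO : Gauss V (algebraMap R M x) O)
    (hu : ∀ O' : ValuationSubring M, Gauss V (algebraMap R M x) O' → O' = O)
    (hs : Sec k κ R M x Y (1 : κ) s)
    (hex : ∀ σ : κ ≃ₐ[k] κ, Ine V σ → ∃ γ : M ≃ₐ[R] M, Rel O s σ γ)
    (hcop : Nat.Coprime (Nat.card (IsLocalRing.ResidueField A)) ℓ)
    {φ : κ ≃ₐ[k] κ} (hφ : Fro V (Nat.card (IsLocalRing.ResidueField A)) φ) (hφδ : φ (1 : κ) = (1 : κ))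
    {h : M} (hh : h ≠ 0) {n : ℕ} (hL : h ^ (ℓ ^ n) ∈ LL R V O s (1 : κ))
    {γ : M ≃ₐ[R] M} (hγ : γ ∈ GI (R := R) V O s (1 : κ)) :
    γ (s φ h / h) = s φ h / h := by
  have hl := isU_ell' hlu hmem
  have hR := hC.rat
  have hh2 : s φ h ≠ 0 := by rw [Ne, EmbeddingLike.map_eq_zero_iff]; exact hh
  have hL2 : (s φ h) ^ (ℓ ^ n) ∈ LL R V O s (1 : κ) := by
    rw [← map_pow]
    exact LL_s hO hu hR hs hφ.1 hφδ hL
  obtain ⟨χ₁, hχ₁⟩ := chi_exists hG2 hC hl hO hu hex hh hL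
  obtain ⟨χ₂, hχ₂⟩ := chi_exists hG2 hC hl hO hu hex hh2 hL2
  obtain ⟨σ, h1, h2, h3⟩ := hγ
  have hc1 : Ine V (φ * σ * φ⁻¹) := ine_conj hφ.1 h1
  have hc2 : (φ * σ * φ⁻¹) (1 : κ) = (1 : κ) := by
    rw [AlgEquiv.mul_apply, AlgEquiv.mul_apply, fix_inv hφδ, h2, hφδ]
  have h4 := (hχ₂ _ hc1 hc2).2 _ (h3.conj hO hu hR hs hφ.1)
  rw [chi_kum' hlu hmem hnon hirr hG2 hKUM hC hO hu hs hex hφ hφδ hh2 hχ₂ h1 h2, conj_apply, s_inv_apply,
    (hχ₁ σ h1 h2).2 γ h3, map_mul, hs.const, frob_rou hl hφ (hχ₁ σ h1 h2).1] at h4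
  have h5 := (algebraMap κ M).injective (mul_right_cancel₀ hh2 h4)
  have h6 : χ₁ σ = χ₂ σ := eq_of_pow_eq (pow_pos (Fact.out : ℓ.Prime).pos n) (hχ₁ σ h1 h2).1
    (hχ₂ σ h1 h2).1 h5 (Nat.Coprime.pow_right n hcop)
  have h7 : algebraMap κ M (χ₂ σ) ≠ 0 := by
    rw [Ne, FaithfulSMul.algebraMap_eq_zero_iff]
    intro h8
    have := (hχ₂ σ h1 h2).1
    rw [h8, zero_pow (pow_pos (Fact.out : ℓ.Prime).pos n).ne'] at this
    exact zero_ne_one this
  rw [map_div₀, (hχ₁ σ h1 h2).2 γ h3, (hχ₂ σ h1 h2).2 γ h3, h6, mul_div_mul_left _ _ h7]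

end


/-- the weight argument with `δ = 1` -/
theorem wgtg' : S_G2 → S_G3 → S_PROL → S_DIVS → S_FINS → S_FIXF → S_SURJ → S_KUMG → S_FRO →
    S_WGTG := by
  intro hG2 hG3 hPROL hDIVS hFINS hFIXF hSURJ hKUM hFRO
  intro ℓ _ A k κ R M _ _ _ _ _ _ _ _ _ _ _ _ _ _ _ _ _ _ _ V hlu hmem hnon x B Y hC hGood F _ r
    hr D s hs O hO hu
  obtain ⟨ϖ, hirr⟩ := IsDiscreteValuationRing.exists_irreducible A
  haveI : IsAlgClosed κ := IsAlgClosure.isAlgClosed k
  haveI : CharZero κ := charZero_of_injective_algebraMap (algebraMap k κ).injective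
  haveI : CharZero R := charZero_of_injective_algebraMap (algebraMap κ R).injective
  haveI halg : Algebra.IsAlgebraic k κ := IsAlgClosure.isAlgebraic
  have hl := isU_ell' (κ := κ) hlu hmem
  have hδ : (1 : κ) ≠ 0 := one_ne_zero
  obtain ⟨p, a, hp, hchar, ha, hq, hF, hcop⟩ := res_facts' (k := k) hlu hmem hnon hirr hr
  haveI : Fact p.Prime := ⟨hp⟩
  obtain ⟨φ, hφ⟩ := hFRO A k κ V hmem hnon
  have hφδ : φ (1 : κ) = 1 := map_one φ
  have hex : ∀ σ : κ ≃ₐ[k] κ, Ine V σ → ∃ γ : M ≃ₐ[R] M, Rel O s σ γ :=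
    fun σ hσ => Rel.exists hG3 hC hO hu hs hσ
  have hY := Y_mem_LL hC hGood hl hδ hO hs
  have hroot : ∀ h : M, h ^ ℓ ∈ LL R V O s (1 : κ) → h ∈ LL R V O s (1 : κ) := by
    intro h hh
    by_cases h0 : h = 0
    · rw [h0]; exact zero_mem _
    intro g γ hγ
    have h1 : g h ≠ 0 := by rw [Ne, EmbeddingLike.map_eq_zero_iff]; exact h0
    have h2 : (g h) ^ ℓ ∈ LL R V O s (1 : κ) := by
      rw [← map_pow]; exact LL_gal hh g
    obtain ⟨N, hLev, hm1, hYN, hNL, hNs⟩ := exists_level halg hC hO hu hs hφ.1 hφδ h2 hY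
    obtain ⟨g0, m0, w, hg0, hg0m, hw, heq⟩ := hSURJ ℓ M N.toSubfield (s φ) hNs
      (hDIVS ℓ κ R M x B Y hC N hLev hYN) (hFINS ℓ κ R M x B Y hC N hLev hYN)
      (hFIXF ℓ κ R M x B Y hC F V r hr hGood hl D p (Nat.card (IsLocalRing.ResidueField A)) a ha hq
        hF O hO hu N hLev hYN (s φ) (φ : κ ≃+* κ) (fun c => hs.const φ c) (hs.fixx φ) hNs hφ.1
        hφ.2) (g h) 1 h1 (by rw [pow_one]; exact hm1)
    rw [heq, map_mul, frob_fix' hlu hmem hnon hirr hG2 hKUM hC hO hu hs hex hcop hφ hφδ hg0 (hNL hg0m) hγ,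
      LL_fix (hNL hw) hγ]
  have hprim : ∃ ζ : R, IsPrimitiveRoot ζ ℓ := by
    haveI : NeZero ℓ := ⟨(Fact.out : ℓ.Prime).ne_zero⟩
    haveI : NeZero (ℓ : κ) := ⟨hl.1⟩
    obtain ⟨ζ, hζ⟩ := HasEnoughRootsOfUnity.exists_primitiveRoot κ ℓ
    exact ⟨algebraMap κ R ζ, hζ.map_of_injective (algebraMap κ R).injective⟩
  have htop := hPROL ℓ R M hprim hC.gal hC.pow (LL R V O s (1 : κ)) hroot
  intro σ hσ z hz
  have hσδ : σ (1 : κ) = 1 := map_one σ
  obtain ⟨γ, hγ⟩ := hex σ hσ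
  have h1 : z ∈ LL R V O s (1 : κ) := by rw [htop]; trivial
  have h2 := hγ z hz
  rw [LL_fix h1 ⟨σ, hσ, hσδ, hγ⟩] at h2
  have h3 := neg_mem h2
  rwa [neg_sub] at h3


end Pool.Agent.Y287.GT
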