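import Pool.Agent.Y287.GT.Kumg
import Pool.Agent.Y287.GT.Wgtg0
import Pool.Agent.Y157.PS.All

/-!
# Project GT (helper157): job GT-WGTG
-/

set_option autoImplicit false

namespace Pool.Agent.Y287.GT

open Pool.Agent.Y157.PS Pool.Agent.Y157.GT

theorem kumg : S_KUMG := kumg' Pool.Agent.Y183.PS.ine

theorem wgtg : S_WGTG :=
  wgtg' a_g2 a_g3 a_prol a_divs a_fins a_fixf a_surj kumg Pool.Agent.Y183.PS.fro

end Pool.Agent.Y287.GT
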