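import Pool.Agent.Y655.PS.Kum0
import Pool.Agent.Y157.GT.Stm

/-!
# Project GT (helper157): characters of the inertia group and conjugation by Frobenius
(adapted from `Pool/Agent/Y655/PS/Kum.lean`)
-/

set_option autoImplicit false

namespace Pool.Agent.Y287.GT

open Pool.Agent.Y157.PS Pool.Agent.Y157.GT Pool.Agent.Y655.PS Finset

theorem kumg' : S_INE → S_KUMG := by
  intro hINE ℓ hℓ A k κ _ _ _ _ _ _ _ _ _ _ _ _ _ V ϖ hlu hmem0 hnon0 hirr φ hφ n χ hχ1 hχ2 hχE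
    σ hσ
  obtain ⟨q, hq⟩ : ∃ q : ℕ, q = Nat.card (IsLocalRing.ResidueField A) := ⟨_, rfl⟩
  rw [← hq] at hφ ⊢
  have : Algebra.IsAlgebraic k κ := IsAlgClosure.isAlgebraic
  have : IsAlgClosed κ := IsAlgClosure.isAlgClosed k
  have : Normal k κ := IsAlgClosure.normal k κ
  have : IsGalois k κ := IsGalois.mk
  have hℓ0 : ℓ ≠ 0 := hℓ.out.ne_zero
  -- `ℓ` is a unit
  have hℓV : IsU V (ℓ : κ) := by
    obtain ⟨u, hu⟩ := hlu
    have h1 : (ℓ : κ) * algebraMap A κ (↑u⁻¹ : A) = 1 := by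
      rw [← map_natCast (algebraMap A κ) ℓ, ← map_mul, ← hu, Units.mul_inv, map_one]
    refine ⟨left_ne_zero_of_mul_eq_one h1, ?_, ?_⟩
    · rw [← map_natCast (algebraMap A κ) ℓ]; exact hmem0 _
    · rw [← eq_inv_of_mul_eq_one_right h1]; exact hmem0 _
  obtain ⟨N, hN⟩ : ∃ N : ℕ, N = ℓ ^ n := ⟨_, rfl⟩
  have hN0 : N ≠ 0 := by rw [hN]; exact pow_ne_zero _ hℓ0
  have hNV : IsU V (N : κ) := by
    rw [hN, Nat.cast_pow]; exact isU_pow V hℓV n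
  rw [← hN] at hχ1
  -- the uniformiser
  obtain ⟨π, hπ⟩ : ∃ π : κ, π = algebraMap A κ ϖ := ⟨_, rfl⟩
  have hinjA : Function.Injective (algebraMap A κ) := by
    rw [IsScalarTower.algebraMap_eq A k κ]
    exact (algebraMap k κ).injective.comp (IsFractionRing.injective A k)
  have hπ0 : π ≠ 0 := by
    rw [hπ, Ne, map_eq_zero_iff _ hinjA]
    exact hirr.ne_zero
  have hπfix : ∀ σ : κ ≃ₐ[k] κ, σ π = π := by
    intro σ
    rw [hπ, IsScalarTower.algebraMap_apply A k κ, AlgEquiv.commutes]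
  have hvπ : V.valuation π ≠ 0 := (V.valuation.ne_zero_iff).2 hπ0
  have hII : ∀ σ : κ ≃ₐ[k] κ, Ine V σ → σ ∈ II (k := k) V (1 : κ) := fun σ h => ⟨h, map_one σ⟩
  -- the Kummer generator
  obtain ⟨E, hEf, hE⟩ := hχE
  obtain ⟨c, hc, hcχ⟩ := resolvent (II (k := k) V (1 : κ)) χ
    (fun σ hσ => by
      have := hχ1 σ hσ.1
      intro h
      rw [h, zero_pow hN0] at this
      exact zero_ne_one this)
    (fun σ hσ σ' hσ' => hχ2 σ σ' hσ.1 hσ'.1)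
    (fun σ hσ σ' hσ' => ine_root V hN0 hNV hσ.1 (hχ1 σ' hσ'.1)) E
    (fun σ h1 h2 => hE σ h1 h2.1)
  have hcN : ∀ σ ∈ II (k := k) V (1 : κ), σ (c ^ N) = c ^ N := by
    intro σ hσ
    rw [map_pow, hcχ σ hσ, mul_pow, hχ1 σ hσ.1, one_mul]
  obtain ⟨i, hi⟩ : ∃ i : ℤ, V.valuation (c ^ N) = V.valuation π ^ i := by
    obtain ⟨j, hj⟩ := hINE A k κ V ϖ hmem0 hnon0 hirr (c ^ N) (pow_ne_zero N hc)
      (fun σ hσ => hcN σ (hII σ hσ))
    refine ⟨j, ?_⟩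
    rw [isU_iff, ← hπ, map_div₀, map_zpow₀, div_eq_one_iff_eq (zpow_ne_zero _ hvπ)] at hj
    exact hj
  -- the unit and its root
  obtain ⟨ρ, hρ⟩ : ∃ ρ : κ, ρ ^ N = c ^ N / π ^ i :=
    IsAlgClosed.exists_pow_nat_eq _ (Nat.pos_of_ne_zero hN0)
  have hρU : IsU V ρ := by
    refine isU_of_pow V hN0 ?_
    rw [hρ, isU_iff, map_div₀, map_zpow₀, hi, div_self]
    exact zpow_ne_zero _ hvπ
  have hρfix : ∀ σ ∈ II (k := k) V (1 : κ), σ ρ = ρ := by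
    intro σ hσ
    have h1 : (σ ρ / ρ) ^ N = 1 := by
      have h2 : σ (ρ ^ N) = ρ ^ N := by
        rw [hρ, map_div₀, map_zpow₀, hcN σ hσ, hπfix σ]
      rw [div_pow, ← map_pow, h2, div_self (pow_ne_zero _ hρU.1)]
    have h2 : σ ρ / ρ = 1 := by
      refine root_one V hNV h1 ?_
      have : σ ρ / ρ - 1 = ρ⁻¹ * (σ ρ - ρ) := by
        have := hρU.1
        field_simp
      rw [this]
      exact mem_mul_non V hρU.2.2 (hσ.1.2 ρ hρU.2.1)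
    exact (div_eq_one_iff_eq hρU.1).1 h2
  obtain ⟨c', hc'⟩ : ∃ c' : κ, c' = c / ρ := ⟨_, rfl⟩
  have hc'0 : c' ≠ 0 := by rw [hc']; exact div_ne_zero hc hρU.1
  have hc'χ : ∀ σ ∈ II (k := k) V (1 : κ), σ c' = χ σ * c' := by
    intro σ hσ
    rw [hc', map_div₀, hcχ σ hσ, hρfix σ hσ, mul_div_assoc]
  have hc'N : c' ^ N = π ^ i := by
    rw [hc', div_pow, hρ]
    have := pow_ne_zero N hc
    have := zpow_ne_zero i hπ0
    field_simp
  have hmem : σ ∈ II (k := k) V (1 : κ) := hII σ hσ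
  have hmem' : φ * σ * φ⁻¹ ∈ II (k := k) V (1 : κ) := hII _ (ine_conj V hφ.1 hσ)
  -- `φ⁻¹ c' = ξ c'`
  obtain ⟨ξ, hξ⟩ : ∃ ξ : κ, ξ = φ⁻¹ c' / c' := ⟨_, rfl⟩
  have hξN : ξ ^ N = 1 := by
    have : φ⁻¹ (c' ^ N) = c' ^ N := by rw [hc'N, map_zpow₀, hπfix]
    rw [hξ, div_pow, ← map_pow, this, div_self (pow_ne_zero _ hc'0)]
  have hξc : φ⁻¹ c' = ξ * c' := by rw [hξ, div_mul_cancel₀ _ hc'0]
  have h1 : (φ * σ * φ⁻¹) c' = φ (χ σ) * c' := by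
    show φ (σ (φ⁻¹ c')) = φ (χ σ) * c'
    rw [hξc, map_mul, ine_root V hN0 hNV hσ hξN, hc'χ σ hmem]
    have : ξ * (χ σ * c') = χ σ * (ξ * c') := by ring
    rw [this, map_mul, ← hξc]
    congr 1
    exact φ.apply_symm_apply c'
  have h2 := hc'χ _ hmem'
  rw [h1] at h2
  rw [← mul_right_cancel₀ hc'0 h2]
  -- Frobenius on roots of unity
  have hχσ := hχ1 σ hσ
  have hU : IsU V (χ σ) := isU_of_pow V hN0 (by rw [hχσ, isU_iff, map_one])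
  have h3 : φ (χ σ) / χ σ ^ q = 1 := by
    refine root_one V hNV ?_ ?_
    · rw [div_pow, ← map_pow, hχσ, map_one, ← pow_mul, mul_comm, pow_mul, hχσ, one_pow, div_one]
    · have : φ (χ σ) / χ σ ^ q - 1 = (χ σ ^ q)⁻¹ * (φ (χ σ) - χ σ ^ q) := by
        have := pow_ne_zero q hU.1
        field_simp
      rw [this]
      exact mem_mul_non V (isU_pow V hU q).2.2 (hφ.2 _ hU.2.1)
  exact (div_eq_one_iff_eq (pow_ne_zero q hU.1)).1 h3

end Pool.Agent.Y287.GT
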