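import Pool.Agent.Y157.GT.Stm
import Pool.Agent.Y157.PS.Stm2
import Mathlib.FieldTheory.RatFunc.IntermediateField

/-!
# Project GT (helper157): existence of the covering field over the small field
-/

set_option autoImplicit false
set_option linter.all false

open Polynomial FF Pool.Agent.Y157.PS Pool.Agent.Y157.GT

namespace Pool.Agent.Y287.GT

/-- a place over `κ` as a place over a subfield -/
def pullP {κ₀ κ E : Type} [Field κ₀] [Field κ] [Field E] [Algebra κ E] [Algebra κ₀ E]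
    (i : κ₀ →+* κ) (h : ∀ c, algebraMap κ₀ E c = algebraMap κ E (i c)) (P : Place κ E) :
    Place κ₀ E where
  ord := P.ord
  ord_zero := P.ord_zero
  ord_mul := P.ord_mul
  ord_add := P.ord_add
  ord_const := by
    intro c hc
    rw [h]
    exact P.ord_const ((map_ne_zero i).2 hc)
  surj := P.surj

/-- roots of unity are constants -/
theorem root_const {F K : Type} [Field F] [IsAlgClosed F] [CharZero F] [Field K] [Algebra F K]
    {m : ℕ} (hm : 0 < m) {z : K} (hz : z ^ m = 1) : ∃ c : F, c ^ m = 1 ∧ algebraMap F K c = z := by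
  haveI : NeZero m := ⟨hm.ne'⟩
  haveI : NeZero (m : F) := ⟨Nat.cast_ne_zero.2 hm.ne'⟩
  obtain ⟨ζ, hζ⟩ := HasEnoughRootsOfUnity.exists_primitiveRoot F m
  have h1 : IsPrimitiveRoot (algebraMap F K ζ) m := hζ.map_of_injective (algebraMap F K).injective
  obtain ⟨i, -, hi⟩ := h1.eq_pow_of_pow_eq_one hz
  refine ⟨ζ ^ i, ?_, by rw [map_pow, hi]⟩
  rw [← pow_mul, mul_comm, pow_mul, hζ.pow_eq_one, one_pow]

theorem Y_ne {ℓ : ℕ} [Fact ℓ.Prime] {κ R M : Type} [Field κ] [Field R] [Field M] [Algebra κ R]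
    [Algebra R M] [Algebra κ M] [IsScalarTower κ R M] {x : R} {B : Finset κ} {Y : M}
    (hC : Cov ℓ κ R M x B Y) : Y ≠ 0 := by
  rintro rfl
  have h1 := hC.eqn
  rw [zero_pow (Fact.out : ℓ.Prime).ne_zero] at h1
  obtain ⟨e, he, h2⟩ := Finset.prod_eq_zero_iff.1 h1.symm
  refine hC.rat.trans ?_
  have h3 : x = algebraMap κ R e := by
    apply (algebraMap R M).injective
    rw [← IsScalarTower.algebraMap_apply κ R M]
    exact sub_eq_zero.1 h2
  rw [h3]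
  exact isAlgebraic_algebraMap e

/-- multiplication of `Y` by a root of unity -/
theorem cov_mul {ℓ : ℕ} {κ R M : Type} [Field κ] [Field R] [Field M] [Algebra κ R]
    [Algebra R M] [Algebra κ M] [IsScalarTower κ R M] {x : R} {B : Finset κ} {Z : M} (hZ : Z ≠ 0)
    (hC : Cov ℓ κ R M x B Z) {c : κ} (hc0 : c ≠ 0) (hc : c ^ ℓ = 1) :
    Cov ℓ κ R M x B (algebraMap κ M c * Z) where
  rat := hC.rat
  gal := hC.gal
  pow := hC.pow
  dvd := hC.dvd
  three := hC.three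
  eqn := by
    rw [mul_pow, ← map_pow, hc, map_one, one_mul]
    exact hC.eqn
  loc := by
    intro V hV hV'
    obtain ⟨W, hW, h⟩ := hC.loc V hV hV'
    refine ⟨W, hW, ?_⟩
    have h1 : W.ord (algebraMap κ M c * Z) = W.ord Z := by
      rw [W.ord_mul ((_root_.map_ne_zero _).2 hc0) hZ, W.ord_const hc0, zero_add]
    rw [h1]
    exact h
  root := hC.root

theorem pair' (hCOV : S_COV) (hEMB : S_EMB) : S_PAIR := by
  classical
  intro ℓ _ κ₀ κ R M _ _ _ _ _ _ _ _ _ _ _ _ _ x B Y hC hB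
  have hℓ : ℓ.Prime := Fact.out
  have hY : Y ≠ 0 := Y_ne hC
  -- the small branch set
  have hinj : Function.Injective (algebraMap κ₀ κ) := (algebraMap κ₀ κ).injective
  obtain ⟨B₀, hB₀⟩ : ∃ B₀ : Finset κ₀, B₀.image (algebraMap κ₀ κ) = B := by
    refine ⟨B.preimage (algebraMap κ₀ κ) hinj.injOn, ?_⟩
    rw [Finset.image_preimage]
    refine Finset.filter_true_of_mem fun e he => ?_
    obtain ⟨e₀, h⟩ := hB e he
    exact ⟨e₀, h⟩
  have hcard : B₀.card = B.card := by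
    rw [← hB₀, Finset.card_image_of_injective _ hinj]
  have hbr : ∀ e, e ∈ B ↔ ∃ e₀ ∈ B₀, algebraMap κ₀ κ e₀ = e := by
    intro e
    rw [← hB₀, Finset.mem_image]
  -- the small fields
  let R₀ := RatFunc κ₀
  let Ω := AlgebraicClosure R₀
  let x₀ : R₀ := RatFunc.X
  have hrat : RatF κ₀ x₀ := ⟨RatFunc.transcendental_X, RatFunc.adjoin_X⟩
  obtain ⟨Z, hZ⟩ : ∃ Z : Ω, Z ^ ℓ = ∏ e ∈ B₀, (algebraMap R₀ Ω x₀ - algebraMap κ₀ Ω e) :=
    IsAlgClosed.exists_pow_nat_eq _ hℓ.pos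
  let M₀ : IntermediateField R₀ Ω :=
    (maxPro ℓ κ₀ (IntermediateField.adjoin R₀ {Z}) Ω).restrictScalars R₀
  have hZM : Z ∈ M₀ := by
    have h1 : Z ∈ IntermediateField.adjoin R₀ {Z} := IntermediateField.mem_adjoin_simple_self R₀ Z
    exact (maxPro ℓ κ₀ (IntermediateField.adjoin R₀ {Z}) Ω).algebraMap_mem ⟨Z, h1⟩
  have hC₀ : Cov ℓ κ₀ R₀ M₀ x₀ B₀ (⟨Z, hZM⟩ : M₀) :=
    hCOV ℓ κ₀ R₀ Ω x₀ hrat B₀ (by rw [hcard]; exact hC.dvd) (by rw [hcard]; exact hC.three) Z hZ M₀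
      (fun z => Iff.rfl) ⟨Z, hZM⟩ rfl
  set Z₀ : M₀ := ⟨Z, hZM⟩ with hZ₀
  have hZ₀ne : Z₀ ≠ 0 := Y_ne hC₀
  -- the embedding
  letI algM : Algebra κ₀ M := ((algebraMap κ M).comp (algebraMap κ₀ κ)).toAlgebra
  have halg : ∀ c, algebraMap κ₀ M c = algebraMap κ M (algebraMap κ₀ κ c) := fun c => rfl
  haveI : IsScalarTower κ₀ κ M := IsScalarTower.of_algebraMap_eq fun c => rfl
  have hprod : ∏ e ∈ B₀, (algebraMap R M x - algebraMap κ₀ M e) = Y ^ ℓ := by
    rw [hC.eqn, ← hB₀, Finset.prod_image (fun a _ b _ h => hinj h)]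
    rfl
  have htrM : Transcendental κ (algebraMap R M x) := by
    rw [transcendental_algebraMap_iff (algebraMap R M).injective]
    exact hC.rat.trans
  have htr : Transcendental κ₀ (algebraMap R M x) := htrM.of_tower_top κ₀
  obtain ⟨j, hj⟩ := hEMB ℓ κ₀ R₀ M₀ x₀ B₀ Z₀ hC₀ M
    {P | ∃ P' : Place κ M, pullP (algebraMap κ₀ κ) halg P' = P}
    (fun g hg h => hC.root g hg fun P => h (pullP (algebraMap κ₀ κ) halg P) ⟨P, rfl⟩)
    (algebraMap R M x) htr (by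
      rintro P ⟨P', rfl⟩
      rw [hprod]
      show (ℓ : ℤ) ∣ P'.ord (Y ^ ℓ)
      rw [P'.ord_pow]
      exact dvd_mul_right _ _)
  -- the root of unity
  have hjZ : (j Z₀) ^ ℓ = Y ^ ℓ := by
    rw [← map_pow, hC₀.eqn, map_prod, ← hprod]
    refine Finset.prod_congr rfl fun e _ => ?_
    rw [map_sub, hj, AlgHom.commutes]
  have h1 : (j Z₀ / Y) ^ ℓ = 1 := by
    rw [div_pow, hjZ, div_self (pow_ne_zero _ hY)]
  obtain ⟨c, hc, hc'⟩ := root_const (F := κ) hℓ.pos h1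
  obtain ⟨c₀, hc₀, hc₀'⟩ := root_const (F := κ₀) (K := κ) hℓ.pos hc
  have hc₀ne : c₀ ≠ 0 := by
    rintro rfl
    rw [zero_pow hℓ.ne_zero] at hc₀
    exact zero_ne_one hc₀
  have hjZ' : j Z₀ = algebraMap κ₀ M c₀ * Y := by
    rw [halg, hc₀', hc', div_mul_cancel₀ _ hY]
  refine ⟨R₀, M₀, inferInstance, inferInstance, inferInstance, inferInstance, inferInstance,
    inferInstance, x₀, B₀, algebraMap κ₀ M₀ c₀⁻¹ * Z₀, (j : M₀ →+* M), ?_⟩
  refine ⟨cov_mul hZ₀ne hC₀ (inv_ne_zero hc₀ne) (by rw [inv_pow, hc₀, inv_one]), hC, hbr,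
    fun c => ?_, hj, ?_⟩
  · exact j.commutes c
  · show j (algebraMap κ₀ M₀ c₀⁻¹ * Z₀) = Y
    rw [map_mul, AlgHom.commutes, hjZ', ← mul_assoc, ← map_mul, inv_mul_cancel₀ hc₀ne, map_one,
      one_mul]

end Pool.Agent.Y287.GT
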